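import Pool.Agent.Y7.EJ.StmO

/-! Job EJ-NEG (helper179) -/

open Set Filter Topology MeasureTheory

set_option autoImplicit false

namespace Pool.Agent.Y179.EJ

open Pool.Agent.Y5 Pool.Agent.Y5.D Pool.Agent.Y7.EJ Pool.Agent.Y7.EJ.Gd

lemma ph0_lm {lm L C ℓ M hh : ℕ → ℝ} {B : ℕ → ℕ → ℝ} (q : SeqP lm L C ℓ M hh B) :
    ph lm 0 * lm 0 ≤ 1 := by
  have := slm q 0
  rw [ph, Real.exp_neg, ← div_eq_inv_mul, div_le_one (Real.exp_pos _)]
  linarith [Real.add_one_le_exp (lm 0)]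

theorem t_NEG : S_NEG := by
  intro lm L C ℓ M hh B T x f g m t ht ht3 hI hY s hs
  have q := g.sq
  have hsT : s < T := hs.2.trans_lt ht.2
  have hlm := slm q (m + 1)
  have hE := EE_pos (lm := lm) (m + 1)
  have hEb := EE_big q (m + 1)
  have hL1 := sLp q (m + 1)
  have hC1 := sCp q (m + 1)
  have hph1 := ph_pos lm (m + 1)
  have hph0 := ph_pos lm 0
  set ζ : ℝ := 1001 / 1000 * L (m + 1) * eta lm (m + 1) ^ 2 + ph lm (m + 1) with hζ
  have hζ0 : 0 ≤ ζ := by positivity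
  set w : ℝ := C (m + 1) * L (m + 1) + ph lm 0 with hw
  have hw0 : 0 ≤ w := by positivity
  have hsub : Icc 0 s ⊆ Ico 0 T := fun τ hτ => ⟨hτ.1, hτ.2.trans_lt hsT⟩
  have h1 := pos_gron (g := fun τ => -(x (m + 1) τ))
    (g' := fun τ => -(vf3 L C ℓ B (fun k => x k τ) (m + 1) + f (m + 1) τ))
    (Q := fun τ => 1001 / 1000 * ∑ i ∈ Finset.range (m + 1), I L x i τ + w * τ)
    (Q' := fun τ => 1001 / 1000 * U L x (m + 1) τ + w) (b := s) (ζ := ζ) hs.1 hζ0
    ((g.cont (m + 1)).mono hsub).neg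
    (fun τ hτ => (g.derivAt (m + 1) ⟨hτ.1, hτ.2.trans hsT⟩).fun_neg)
    (by
      refine ContinuousOn.add (continuousOn_const.mul ?_) (by fun_prop)
      exact continuousOn_finsetSum _ fun i _ => (Pr_cont (g.cabs i)).mono hsub)
    (fun τ hτ => by
      have h1 : HasDerivAt (fun τ => ∑ i ∈ Finset.range (m + 1), I L x i τ)
          (U L x (m + 1) τ) τ := by
        have := HasDerivAt.fun_sum (u := Finset.range (m + 1)) (A := fun i τ => I L x i τ)
          (A' := fun i => L i * |x i τ|) (x := τ)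
          (fun i _ => Pr_deriv (g.cabs i) ⟨hτ.1, hτ.2.trans hsT⟩)
        exact this
      have h2 : HasDerivAt (fun τ : ℝ => w * τ) w τ := by
        simpa using (hasDerivAt_id τ).const_mul w
      exact (h1.const_mul _).fun_add h2)
    (fun τ hτ => by
      have := U_nonneg (x := x) q (m + 1) τ
      positivity)
    (by simp only [g.hn m]; simp)
    (fun τ hτ hneg => by
      have hτI : τ ∈ Ico 0 T := ⟨hτ.1.le, hτ.2.trans hsT⟩
      have h2 := g.vf_ge_neg hτI (m + 1) (by linarith)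
      have h3 := g.abs_le_one hτI (m + 1 + 1)
      have h4 := hY τ ⟨hτ.1.le, hτ.2.le.trans hs.2⟩
      have h5 : Y x (m + 1 + 1) τ ≤ eta lm (m + 1) ^ 2 := by
        calc Y x (m + 1 + 1) τ = √(Y x (m + 1 + 1) τ) ^ 2 := (Real.sq_sqrt (Y_nonneg _ _)).symm
          _ ≤ _ := by gcongr
      have h6 : |x (m + 1) τ| = -(x (m + 1) τ) := abs_of_nonpos (by linarith)
      rw [h6] at h2
      have h7 : (C (m + 1) * L (m + 1) * |x (m + 1 + 1) τ|
        + 1001 / 1000 * U L x (m + 1) τ + ph lm 0) * -(x (m + 1) τ)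
          ≤ (1001 / 1000 * U L x (m + 1) τ + w) * -(x (m + 1) τ) := by
        have h8 : C (m + 1) * L (m + 1) * |x (m + 1 + 1) τ| ≤ C (m + 1) * L (m + 1) * 1 := by
          gcongr
        exact mul_le_mul_of_nonneg_right (by rw [hw]; linarith) hneg
      have h8 : 1001 / 1000 * L (m + 1) * Y x (m + 1 + 1) τ
          ≤ 1001 / 1000 * L (m + 1) * eta lm (m + 1) ^ 2 := by gcongr
      rw [hζ]
      linarith)
  have hI0 : ∑ i ∈ Finset.range (m + 1), I L x i 0 = 0 := by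
    refine Finset.sum_eq_zero fun i _ => ?_
    simp [I]
  simp only [hI0, mul_zero, add_zero, sub_zero] at h1
  have hs0 := hs.1
  have hlm0 := slm q 0
  have hsE : s ≤ EE lm (m + 1) := by
    have := EE_lm4 q (k := 0) (n := m + 1) (Nat.zero_le _)
    linarith [hs.2]
  have hLE := EE_L q (k := m + 1) (n := m + 1) (by omega)
  have hCE := C_hi' q (m + 1)
  -- the exponent
  have hexp : 1001 / 1000 * ∑ i ∈ Finset.range (m + 1), I L x i s + w * s
      ≤ 21 / 1000 * lm (m + 1) := by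
    have e1 : ∑ i ∈ Finset.range (m + 1), I L x i s ≤ 2 * lm m :=
      (Finset.sum_le_sum fun i _ => g.I_mono i hs.1 hs.2 ht.2).trans hI
    have e2 := slm100 q m
    have e3 : C (m + 1) * L (m + 1) * s ≤ 1 := by
      calc C (m + 1) * L (m + 1) * s ≤
          Real.exp (-(157 / 100) * lm (m + 1)) * EE lm (m + 1) * EE lm (m + 1) := by gcongr
        _ = EE lm (m + 1) ^ 2 * Real.exp (-(157 / 100) * lm (m + 1)) := by ring
        _ ≤ Real.exp (0 * lm (m + 1)) := EE_exp q (m + 1) 2 (by norm_num)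
        _ = 1 := by simp
    have e4 : ph lm 0 * s ≤ 3 := by
      calc ph lm 0 * s ≤ ph lm 0 * (3 * lm 0) := by gcongr; exact hs.2.trans ht3
        _ = 3 * (ph lm 0 * lm 0) := by ring
        _ ≤ 3 := by linarith [ph0_lm q]
    have e5 := q.lm_big (m + 1)
    have e6 : w * s = C (m + 1) * L (m + 1) * s + ph lm 0 * s := by rw [hw]; ring
    rw [e6]
    linarith
  have hζE : ζ ≤ EE lm (m + 1) ^ 2 * Real.exp (-1 * lm (m + 1)) := by
    have e1 : eta lm (m + 1) ^ 2 ≤ Real.exp (-1 * lm (m + 1)) := by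
      rw [eta, ← Real.exp_nat_mul]
      apply Real.exp_le_exp.2
      push_cast
      nlinarith
    have e2 : ph lm (m + 1) = Real.exp (-1 * lm (m + 1)) := ph_eq _
    have e3 := Real.exp_pos (-1 * lm (m + 1))
    rw [hζ, e2]
    calc 1001 / 1000 * L (m + 1) * eta lm (m + 1) ^ 2 + Real.exp (-1 * lm (m + 1))
        ≤ 1001 / 1000 * EE lm (m + 1) * Real.exp (-1 * lm (m + 1)) +
          Real.exp (-1 * lm (m + 1)) := by gcongr
      _ = (1001 / 1000 * EE lm (m + 1) + 1) * Real.exp (-1 * lm (m + 1)) := by ring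
      _ ≤ EE lm (m + 1) ^ 2 * Real.exp (-1 * lm (m + 1)) := by
          refine mul_le_mul_of_nonneg_right ?_ e3.le
          nlinarith
  have hfin : Real.exp (1001 / 1000 * ∑ i ∈ Finset.range (m + 1), I L x i s + w * s) * (ζ * s) ≤
      Real.exp (-(1 / 2) * lm (m + 1)) := by
    calc _ ≤ Real.exp (21 / 1000 * lm (m + 1)) *
          ((EE lm (m + 1) ^ 2 * Real.exp (-1 * lm (m + 1))) * EE lm (m + 1)) := by
          gcongr
      _ = EE lm (m + 1) ^ 3 * (Real.exp (21 / 1000 * lm (m + 1)) *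
          Real.exp (-1 * lm (m + 1))) := by ring
      _ = EE lm (m + 1) ^ 3 * Real.exp (-(979 / 1000) * lm (m + 1)) := by
          rw [← Real.exp_add]; congr 2; ring
      _ ≤ _ := EE_exp q (m + 1) 3 (by norm_num)
  have := h1.trans hfin
  linarith

theorem t_TIME : S_TIME := by
  intro lm L C ℓ M hh B T x f g n τ ρ t hS hG
  have q := g.sq
  have hh0 := q.hh_pos n
  have hLn := sLp q n
  have hL1 := sLp q (n + 1)
  have hlm1 := slm q (n + 1)
  have hlmn := slm q n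
  have hlm0 := slm q 0
  have hτI : τ ∈ Ico 0 T := ⟨hS.τ0, hS.τT⟩
  have htI : t ∈ Ico 0 T := ⟨hS.τ0.trans hG.τt, hG.tT⟩
  have h1 := le_incr (f := fun s => L (n + 1) * (hh n / 2) * s)
    (f' := fun _ => L (n + 1) * (hh n / 2)) (g.cabs (n + 1)) hτI htI hG.τt (by fun_prop)
    (fun s _ => by simpa using (hasDerivAt_id s).const_mul (L (n + 1) * (hh n / 2)))
    (fun s hs => by
      have := hG.pos s ⟨hs.1.le, hs.2.le⟩
      have h2 := le_abs_self (x (n + 1) s)
      gcongr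
      linarith)
  have h2 := hG.ang t ⟨hG.τt, le_rfl⟩
  unfold Aa at h2
  rw [div_le_iff₀ hlm1] at h2
  have h3 : L (n + 1) * (hh n / 2) * (t - τ) ≤ 17 / 10 * lm (n + 1) := by
    have : I L x (n + 1) t - I L x (n + 1) τ = Pr (fun τ => L (n + 1) * |x (n + 1) τ|) t -
      Pr (fun τ => L (n + 1) * |x (n + 1) τ|) τ := rfl
    rw [this] at h2
    calc L (n + 1) * (hh n / 2) * (t - τ) = L (n + 1) * (hh n / 2) * t -
        L (n + 1) * (hh n / 2) * τ := by ring
      _ ≤ _ := h1.trans h2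
  have h4 : L n * (t - τ) * hh n ≤ 34 / 10 := by
    rw [← q.lm_succ n] at h3
    have h5 : lm (n + 1) * (L n * (t - τ) * hh n) ≤ lm (n + 1) * (34 / 10) := by
      nlinarith
    exact le_of_mul_le_mul_left h5 hlm1
  have h5 : L n * (t - τ) ≤ 4 / hh n := by
    rw [le_div_iff₀ hh0]; linarith
  refine ⟨h5, ?_⟩
  have h6 : t - τ ≤ (1 / 2) ^ (n + 1) * lm 0 := by
    have h7 : t - τ ≤ 4 / (hh n * L n) := by
      rw [le_div_iff₀ (by positivity)]
      nlinarith
    refine h7.trans ?_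
    have h8 := q.hh_lm n
    have h9 := hh1 q n
    have h10 := hh9 q n
    have hb0 := q.lm_big 0
    rw [div_le_iff₀ (by positivity)]
    have p7 : hh n ^ 7 ≤ hh n := by
      calc hh n ^ 7 ≤ hh n ^ 1 := pow_le_pow_of_le_one hh0.le (by linarith) (by norm_num)
        _ = hh n := pow_one _
    rcases n with _ | n
    · have hL0 := q.L0
      -- `4 ≤ (1/2) lm 0 h`
      have e1 : 1 ≤ lm 0 * hh 0 * hh 0 := by
        calc (1 : ℝ) ≤ lm 0 * hh 0 ^ 8 := h8
          _ = lm 0 * hh 0 * hh 0 ^ 7 := by ring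
          _ ≤ lm 0 * hh 0 * hh 0 := by gcongr
      have e2 : 10 ^ 9 ≤ lm 0 * hh 0 := by
        have : lm 0 * hh 0 * hh 0 ≤ lm 0 * hh 0 * (1 / 10 ^ 9) := by gcongr
        linarith
      have e3 : lm 0 * hh 0 * 1 ≤ lm 0 * hh 0 * L 0 := by gcongr
      norm_num
      linarith
    · have e0 : lm (n + 1) * 1 ≤ L (n + 1) := by
        rw [← q.lm_succ n]
        have := sL1 q n
        gcongr
      have e1 : 1 ≤ lm (n + 1) * hh (n + 1) * hh (n + 1) := by
        calc (1 : ℝ) ≤ lm (n + 1) * hh (n + 1) ^ 8 := h8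
          _ = lm (n + 1) * hh (n + 1) * hh (n + 1) ^ 7 := by ring
          _ ≤ lm (n + 1) * hh (n + 1) * hh (n + 1) := by gcongr
      have e2 : hh (n + 1) ≤ 1 / 10 ^ 9 * (1 / 2) ^ (n + 1) := by
        refine h9.trans ?_
        gcongr
        norm_num
      have hpow : (0 : ℝ) < (1 / 2) ^ (n + 1) := by positivity
      have e3 : 1 ≤ hh (n + 1) * L (n + 1) * hh (n + 1) := by
        calc (1 : ℝ) ≤ lm (n + 1) * hh (n + 1) * hh (n + 1) := e1
          _ ≤ L (n + 1) * hh (n + 1) * hh (n + 1) := by gcongr; linarith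
          _ = _ := by ring
      have e4 : 10 ^ 9 ≤ hh (n + 1) * L (n + 1) * (1 / 2) ^ (n + 1) := by
        have : hh (n + 1) * L (n + 1) * hh (n + 1) ≤
          hh (n + 1) * L (n + 1) * (1 / 10 ^ 9 * (1 / 2) ^ (n + 1)) := by gcongr
        linarith
      have e5 : hh (n + 1) * L (n + 1) * (1 / 2) ^ (n + 1) * 1 ≤
          hh (n + 1) * L (n + 1) * (1 / 2) ^ (n + 1) * lm 0 := by
        gcongr
        linarith
      calc (4 : ℝ) ≤ 1 / 2 * (hh (n + 1) * L (n + 1) * (1 / 2) ^ (n + 1) * lm 0) := by linarith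
        _ = (1 / 2) ^ (n + 1 + 1) * lm 0 * (hh (n + 1) * L (n + 1)) := by
            rw [pow_succ (1 / 2 : ℝ) (n + 1)]; ring
  have h7 := hS.time
  have h8 : ((1 : ℝ) / 2) ^ n = 2 * (1 / 2) ^ (n + 1) := by rw [pow_succ]; ring
  rw [h8] at h7
  nlinarith

end Pool.Agent.Y179.EJ
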