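import Pool.Agent.Y179.EJ.Neg

/-! Jobs EJ-YP, EJ-XY (helper179) -/

open Set Filter Topology MeasureTheory

set_option autoImplicit false

namespace Pool.Agent.Y179.EJ

open Pool.Agent.Y5 Pool.Agent.Y5.D Pool.Agent.Y7.EJ Pool.Agent.Y7.EJ.Gd

section

variable {lm L C ℓ M hh : ℕ → ℝ} {B : ℕ → ℕ → ℝ} {T : ℝ} {x f : ℕ → ℝ → ℝ}

lemma Aa_nonneg (g : Gd lm L C ℓ M hh B T x f) (n : ℕ) {τ t : ℝ} (h0 : 0 ≤ τ) (hτ : τ ≤ t)
    (ht : t < T) : 0 ≤ Aa lm L x n τ t := by
  unfold Aa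
  have h1 := g.I_mono (n + 1) h0 hτ ht
  have := slm g.sq (n + 1)
  exact div_nonneg (by linarith) this.le

lemma Aa_cont (g : Gd lm L C ℓ M hh B T x f) (n : ℕ) {τ t : ℝ} (h0 : 0 ≤ τ)
    (ht : t < T) : ContinuousOn (Aa lm L x n τ) (Icc τ t) := by
  unfold Aa
  refine ContinuousOn.div_const (ContinuousOn.sub ?_ continuousOn_const) _
  exact (Pr_cont (g.cabs (n + 1))).mono fun s hs => ⟨h0.trans hs.1, hs.2.trans_lt ht⟩

lemma Aa_deriv (g : Gd lm L C ℓ M hh B T x f) (n : ℕ) {τ s : ℝ} (hs : s ∈ Ioo 0 T) :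
    HasDerivAt (Aa lm L x n τ) (L n * |x (n + 1) s|) s := by
  unfold Aa
  have h1 : HasDerivAt (fun s => I L x (n + 1) s) (L (n + 1) * |x (n + 1) s|) s :=
    Pr_deriv (g.cabs (n + 1)) hs
  have h2 := (h1.sub_const (I L x (n + 1) τ)).div_const (lm (n + 1))
  refine h2.congr_deriv ?_
  have := slm g.sq (n + 1)
  rw [← g.sq.lm_succ n]
  field_simp

lemma Aa_self (n : ℕ) (τ : ℝ) : Aa lm L x n τ τ = 0 := by
  unfold Aa
  simp

end

theorem t_YP (hXY : S_XY) : S_YP := by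
  intro lm L C ℓ M hh B T x f g n τ ρ t hS hG
  have q := g.sq
  have hh0 := q.hh_pos n
  have h9 := hh9 q n
  have hτI : τ ∈ Ico 0 T := ⟨hS.τ0, hS.τT⟩
  have hA0 := Aa_nonneg g n hS.τ0 hG.τt hG.tT
  have hA1 := hG.ang t ⟨hG.τt, le_rfl⟩
  obtain ⟨-, hxy⟩ := hXY lm L C ℓ M hh B T x f g n τ ρ t hS hG
  obtain ⟨A, hA⟩ : ∃ A, A = Aa lm L x n τ t := ⟨_, rfl⟩
  rw [← hA] at hA0 hA1 hxy ⊢
  obtain ⟨X0, hX⟩ : ∃ X0, X0 = x n τ := ⟨_, rfl⟩
  obtain ⟨Y0, hY⟩ : ∃ Y0, Y0 = x (n + 1) τ := ⟨_, rfl⟩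
  rw [← hX, ← hY] at hxy
  have hX9 : 9 / 10 ≤ X0 := by rw [hX]; exact hS.ρ9.trans hS.car
  have hX1 : X0 ≤ 1 := by rw [hX]; exact (le_abs_self _).trans (g.abs_le_one hτI n)
  have hY9 : 99 / 100 * hh n ≤ Y0 := by rw [hY]; exact hS.nxt
  have hY1 : Y0 ≤ hh n := by
    rw [hY, ← hS.thr]; exact (le_abs_self _).trans (g.abs_le_sqrt hτI le_rfl)
  have hlo := neg_le_of_abs_le hxy
  have hhi := le_of_abs_le hxy
  have hpi1 := Real.pi_gt_d2
  have hpi2 := Real.pi_lt_d2
  have hsin0 : 0 ≤ Real.sin A := Real.sin_nonneg_of_nonneg_of_le_pi hA0 (by linarith)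
  have hsinA : Real.sin A ≤ A := Real.sin_le hA0
  have hcos1 := Real.cos_le_one A
  have hYp : 0 < Y0 := by
    have : 0 < 99 / 100 * hh n := by positivity
    linarith
  -- the second case
  have hb : 3 / 2 ≤ A → 8 / 10 ≤ x (n + 1) t := by
    intro h3
    have e1 : Real.sin A = Real.cos (A - Real.pi / 2) := by
      rw [Real.cos_sub_pi_div_two]
    have e2 := Real.one_sub_sq_div_two_le_cos (x := A - Real.pi / 2)
    have e3 : (A - Real.pi / 2) ^ 2 ≤ (13 / 100) ^ 2 := by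
      rw [sq_le_sq, abs_of_pos (show (0 : ℝ) < 13 / 100 by norm_num), abs_le]
      constructor <;> linarith
    have e4 : 99 / 100 ≤ Real.sin A := by rw [e1]; linarith
    have e5 : -1 ≤ Real.cos A := Real.neg_one_le_cos A
    have e6 : 9 / 10 * (99 / 100) ≤ X0 * Real.sin A := by
      calc (9 : ℝ) / 10 * (99 / 100) ≤ X0 * (99 / 100) := by gcongr
        _ ≤ X0 * Real.sin A := by gcongr
    have e7 : -Y0 ≤ Y0 * Real.cos A := by nlinarith
    linarith
  refine ⟨hA0, ?_, hb, ?_⟩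
  · by_cases hc : A ≤ Real.pi / 2
    · have hcos0 : 0 ≤ Real.cos A := Real.cos_nonneg_of_neg_pi_div_two_le_of_le (by linarith) hc
      have e1 : 1 ≤ Real.sin A + Real.cos A := by
        have h1 := Real.sin_sq_add_cos_sq A
        have h2 : 0 ≤ Real.sin A * Real.cos A := mul_nonneg hsin0 hcos0
        nlinarith
      have e2 : Y0 * Real.sin A ≤ X0 * Real.sin A :=
        mul_le_mul_of_nonneg_right (by linarith) hsin0
      have e3 : Y0 * 1 ≤ Y0 * (Real.sin A + Real.cos A) := by gcongr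
      linarith
    · push Not at hc
      have := hb (by linarith)
      linarith
  · have e1 : X0 * Real.sin A ≤ 1 * Real.sin A := mul_le_mul_of_nonneg_right hX1 hsin0
    have e2 : Y0 * Real.cos A ≤ Y0 * 1 := mul_le_mul_of_nonneg_left hcos1 hYp.le
    linarith

theorem t_XY (hE : S_ERR) (hR : S_ROT) (hT : S_TIME) (hTa : Pool.Agent.Y7.EJ.S_TAIL) : S_XY := by
  intro lm L C ℓ M hh B T x f g n τ ρ t hS hG
  have q := g.sq
  have hh0 := q.hh_pos n
  have hh1' := q.hh_pos (n + 1)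
  have h9 := hh9 q n
  have hs := q.hh_succ n
  have hLn := sLp q n
  have hL1 := sLp q (n + 1)
  have hLle : L n ≤ L (n + 1) := sLmono q (Nat.le_succ n)
  have hlm1 := slm q (n + 1)
  have htT := hG.tT
  have hsub : Icc τ t ⊆ Ico 0 T := fun s hs => ⟨hS.τ0.trans hs.1, hs.2.trans_lt htT⟩
  obtain ⟨-, -, h3⟩ := hTa lm L C ℓ M hh B T x f g n τ ρ hS
  obtain ⟨-, -, -, hY3⟩ := h3 t hG
  obtain ⟨htime, -⟩ := hT lm L C ℓ M hh B T x f g n τ ρ t hS hG
  have hE' := hE lm L C ℓ M hh B T x f g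
  have heta := eta_pos (lm := lm) (n + 2)
  have key := hR (x n) (x (n + 1)) (fun s => vf3 L C ℓ B (fun k => x k s) n + f n s)
    (fun s => vf3 L C ℓ B (fun k => x k s) (n + 1) + f (n + 1) s) (Aa lm L x n τ)
    (fun s => L n * |x (n + 1) s|)
    (fun s => 4 * hh n ^ 4 * L n * (s - τ) + 4 * hh (n + 1) * Aa lm L x (n + 1) τ s +
      4 * L (n + 1) * eta lm (n + 2) ^ 2 * (s - τ))
    (fun s => 4 * hh n ^ 4 * L n + 4 * hh (n + 1) * (L (n + 1) * |x (n + 1 + 1) s|) +
      4 * L (n + 1) * eta lm (n + 2) ^ 2) (L n) τ t (hh n / 2000) hG.τt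
    ((g.cont n).mono hsub) ((g.cont (n + 1)).mono hsub) (Aa_cont g n hS.τ0 htT)
    (by
      refine ContinuousOn.add (ContinuousOn.add (by fun_prop) ?_) (by fun_prop)
      exact continuousOn_const.mul (Aa_cont g (n + 1) hS.τ0 htT))
    (fun s hs' => by
      have hsI : s ∈ Ico 0 T := hsub ⟨hs'.1.le, hs'.2.le⟩
      have hsO : s ∈ Ioo 0 T := ⟨hS.τ0.trans_lt hs'.1, hs'.2.trans htT⟩
      have hpos := hG.pos s ⟨hs'.1.le, hs'.2.le⟩
      refine ⟨g.derivAt n hsO, g.derivAt (n + 1) hsO, Aa_deriv g n hsO, ?_, ?_, ?_⟩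
      · have d1 : HasDerivAt (fun s : ℝ => 4 * hh n ^ 4 * L n * (s - τ)) (4 * hh n ^ 4 * L n) s := by
          simpa using ((hasDerivAt_id s).sub_const τ).const_mul (4 * hh n ^ 4 * L n)
        have d2 := (Aa_deriv g (n + 1) (τ := τ) hsO).const_mul (4 * hh (n + 1))
        have d3 : HasDerivAt (fun s : ℝ => 4 * L (n + 1) * eta lm (n + 2) ^ 2 * (s - τ))
            (4 * L (n + 1) * eta lm (n + 2) ^ 2) s := by
          simpa using ((hasDerivAt_id s).sub_const τ).const_mul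
            (4 * L (n + 1) * eta lm (n + 2) ^ 2)
        exact (d1.fun_add d2).fun_add d3
      · rw [abs_of_pos (by linarith)]
      · obtain ⟨c1, c2, -⟩ := hE' s hsI
        have c1' := c1 n
        have c2' := c2 n
        have y2 := g.Y_succ hsI (n + 2)
        have y3 := hY3 s ⟨hsI.1, hs'.2.le⟩
        have y3' : Y x (n + 2 + 1) s ≤ eta lm (n + 2) ^ 2 := by
          calc Y x (n + 2 + 1) s = √(Y x (n + 2 + 1) s) ^ 2 :=
                (Real.sq_sqrt (Y_nonneg _ _)).symm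
            _ ≤ _ := by gcongr
        have y4 := hG.thr s ⟨hs'.1.le, hs'.2.le⟩
        have y5 := g.abs_le_sqrt hsI (le_refl (n + 2))
        have y6 : x (n + 2) s ^ 2 ≤ hh (n + 1) * |x (n + 2) s| := by
          rw [← sq_abs, pow_two]
          exact mul_le_mul_of_nonneg_right (y5.trans y4) (abs_nonneg _)
        have y7 : Y x (n + 2) s ≤ hh (n + 1) * |x (n + 2) s| + eta lm (n + 2) ^ 2 := by
          linarith
        have y0 := Y_nonneg (x := x) (n + 2) s
        have z1 : 10 * hh n ^ 8 * L n ≤ hh n ^ 4 * L n := by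
          have : 10 * hh n ^ 8 ≤ hh n ^ 4 := by
            have e : hh n ^ 8 = hh n ^ 4 * hh n ^ 4 := by ring
            have e2 : hh n ^ 4 ≤ hh n ^ 1 :=
              pow_le_pow_of_le_one hh0.le (by linarith) (by norm_num)
            rw [pow_one] at e2
            have e3 : hh n ^ 4 ≤ 1 / 10 := by linarith
            have e4 : 0 ≤ hh n ^ 4 := by positivity
            rw [e]
            nlinarith
          gcongr
        have z2 : 2 * L n * Y x (n + 2) s ≤ 2 * L (n + 1) * Y x (n + 2) s := by gcongr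
        have z3 : 4 * L (n + 1) * Y x (n + 2) s ≤ 4 * L (n + 1) *
            (hh (n + 1) * |x (n + 2) s| + eta lm (n + 2) ^ 2) := by gcongr
        calc _ ≤ (10 * hh n ^ 8 * L n + 2 * L n * Y x (n + 2) s) +
              (3 * hh n ^ 4 * L n + 2 * L (n + 1) * Y x (n + 2) s) := add_le_add c1' c2'
          _ ≤ 4 * hh n ^ 4 * L n + 4 * L (n + 1) * Y x (n + 2) s := by linarith
          _ ≤ 4 * hh n ^ 4 * L n + 4 * L (n + 1) *
            (hh (n + 1) * |x (n + 2) s| + eta lm (n + 2) ^ 2) := by linarith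
          _ = 4 * hh n ^ 4 * L n + 4 * hh (n + 1) * (L (n + 1) * |x (n + 1 + 1) s|) +
            4 * L (n + 1) * eta lm (n + 2) ^ 2 := by
              rw [show n + 1 + 1 = n + 2 from rfl]; ring)
    (Aa_self n τ)
    (by
      rw [Aa_self, sub_self, mul_zero, mul_zero, mul_zero, zero_add, zero_add, sub_zero]
      have hnx := hG.nx t ⟨hG.τt, le_rfl⟩
      have p1 : 4 * hh n ^ 4 * L n * (t - τ) ≤ 16 * hh n ^ 3 := by
        calc 4 * hh n ^ 4 * L n * (t - τ) = 4 * hh n ^ 4 * (L n * (t - τ)) := by ring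
          _ ≤ 4 * hh n ^ 4 * (4 / hh n) := by gcongr
          _ = 16 * hh n ^ 3 := by field_simp; ring
      have p2 : 4 * hh (n + 1) * Aa lm L x (n + 1) τ t ≤ 20 * hh (n + 1) ^ 2 := by
        calc _ ≤ 4 * hh (n + 1) * (5 * hh (n + 1)) := by gcongr
          _ = _ := by ring
      have p3 : 4 * L (n + 1) * eta lm (n + 2) ^ 2 * (t - τ) ≤ hh n / 10 ^ 4 := by
        have e1 : 4 * L (n + 1) * eta lm (n + 2) ^ 2 * (t - τ) =
            4 * lm (n + 1) * eta lm (n + 2) ^ 2 * (L n * (t - τ)) := by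
          rw [← q.lm_succ n]; ring
        have e2 : 4 * lm (n + 1) * eta lm (n + 2) ^ 2 * (L n * (t - τ)) ≤
            4 * lm (n + 1) * eta lm (n + 2) ^ 2 * (4 / hh n) := by gcongr
        have hlmn := slm q n
        have e3 : 1 ≤ lm n * hh n := by
          calc (1 : ℝ) ≤ lm n * hh n ^ 8 := q.hh_lm n
            _ ≤ lm n * hh n ^ 1 := by
              gcongr lm n * ?_
              exact pow_le_pow_of_le_one hh0.le (by linarith) (by norm_num)
            _ = _ := by rw [pow_one]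
        have e4 : (hh n)⁻¹ ≤ EE lm (n + 2) := by
          have : (hh n)⁻¹ ≤ lm n := by
            rw [inv_le_iff_one_le_mul₀ hh0]; exact e3
          exact this.trans (EE_lm' q (by omega))
        have e5 : lm (n + 1) ≤ EE lm (n + 2) := EE_lm' q (by omega)
        have e6 := EE_big q (n + 2)
        have e7 : 16 * 10 ^ 4 * (lm (n + 1) * ((hh n)⁻¹ * (hh n)⁻¹)) * eta lm (n + 2) ^ 2
            ≤ 1 := by
          have hEp := EE_pos (lm := lm) (n + 2)
          calc 16 * 10 ^ 4 * (lm (n + 1) * ((hh n)⁻¹ * (hh n)⁻¹)) * eta lm (n + 2) ^ 2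
              ≤ EE lm (n + 2) * (EE lm (n + 2) * (EE lm (n + 2) * EE lm (n + 2))) *
                Real.exp (-(28 / 10) * lm (n + 2)) := by
                have e8 : eta lm (n + 2) ^ 2 = Real.exp (-(28 / 10) * lm (n + 2)) := by
                  rw [eta, ← Real.exp_nat_mul]
                  congr 1
                  push_cast
                  ring
                rw [e8]
                gcongr
                linarith
            _ = EE lm (n + 2) ^ 4 * Real.exp (-(28 / 10) * lm (n + 2)) := by ring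
            _ ≤ Real.exp (0 * lm (n + 2)) := EE_exp q (n + 2) 4 (by norm_num)
            _ = 1 := by simp
        rw [e1]
        refine e2.trans ?_
        have e9 : 4 * lm (n + 1) * eta lm (n + 2) ^ 2 * (4 / hh n) =
            (16 * 10 ^ 4 * (lm (n + 1) * ((hh n)⁻¹ * (hh n)⁻¹)) * eta lm (n + 2) ^ 2) *
              (hh n / 10 ^ 4) := by
          field_simp
          ring
        rw [e9]
        calc _ ≤ 1 * (hh n / 10 ^ 4) := by gcongr
          _ = _ := one_mul _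
      have p4 : 16 * hh n ^ 3 ≤ hh n / 10 ^ 4 := by
        have : hh n ^ 2 ≤ 1 / 10 ^ 9 := by nlinarith
        nlinarith
      have p5 : 20 * hh (n + 1) ^ 2 ≤ hh n / 10 ^ 4 := by
        have : hh (n + 1) ^ 2 ≤ (hh n / 1000) ^ 2 := by gcongr
        nlinarith
      linarith)
  obtain ⟨k1, k2⟩ := key
  have e : 2 * (hh n / 2000) = hh n / 1000 := by ring
  rw [e] at k1 k2
  exact ⟨k1, k2⟩

end Pool.Agent.Y179.EJ
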